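import Pool.Agent.H60.CS.PL

set_option autoImplicit false

namespace Pool.Agent.Results.MP_3f0dd2_gt.ConeSantalo

open MeasureTheory Metric Set Matrix Pool.Agent.H60.CS

/-- The simplicial cone `{x : ⟨x, a i⟩ ≥ 0 for all i}`. -/
def Cone {n : ℕ} (a : Fin n → EuclideanSpace ℝ (Fin n)) : Set (EuclideanSpace ℝ (Fin n)) :=
  {x | ∀ i, 0 ≤ inner ℝ x (a i)}

/-- The dual cone `{y : ⟨y, x⟩ ≥ 0 for all x ∈ C}`. -/
def Dual {n : ℕ} (C : Set (EuclideanSpace ℝ (Fin n))) : Set (EuclideanSpace ℝ (Fin n)) :=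
  {y | ∀ x ∈ C, 0 ≤ inner ℝ y x}

/-- The positive orthant. -/
def Orthant (n : ℕ) : Set (EuclideanSpace ℝ (Fin n)) := {z | ∀ i, 0 ≤ z i}

theorem ip {n : ℕ} (x y : EuclideanSpace ℝ (Fin n)) : inner ℝ x y = x.1 ⬝ᵥ y.1 := by
  simp [PiLp.inner_apply, dotProduct, mul_comm]

theorem cov {n : ℕ} {N : Matrix (Fin n) (Fin n) ℝ} (h : N.det ≠ 0) {F : (Fin n → ℝ) → ENNReal}
    (hF : Measurable F) : ∫⁻ x, F x = ENNReal.ofReal |N.det| * ∫⁻ p, F (N *ᵥ p) := by
  have h1 := lintegral_map (μ := volume) hF (f := F) (g := toLin' N)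
    (LinearMap.continuous_on_pi (toLin' N)).measurable
  rw [Real.map_matrix_volume_pi_eq_smul_volume_pi h, lintegral_smul_measure] at h1
  simp only [toLin'_apply] at h1
  rw [← h1, smul_eq_mul, ← mul_assoc, ← ENNReal.ofReal_mul (abs_nonneg _), ← abs_mul,
    mul_inv_cancel₀ h, abs_one, ENNReal.ofReal_one, one_mul]

theorem toE {n : ℕ} (F : EuclideanSpace ℝ (Fin n) → ENNReal) (hF : Measurable F) :
    ∫⁻ x, F x = ∫⁻ x : Fin n → ℝ, F (WithLp.toLp 2 x) :=
  ((PiLp.volume_preserving_toLp (Fin n)).lintegral_comp hF).symm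

abbrev Pos (n : ℕ) : Set (Fin n → ℝ) := univ.pi fun _ : Fin n => Ioi (0 : ℝ)

/-- The integral over a cone `{x : L x ≥ 0}`, in the coordinates `p = L x`. -/
theorem cone_int {n : ℕ} {L N : Matrix (Fin n) (Fin n) ℝ} (h : L * N = 1)
    {C : Set (EuclideanSpace ℝ (Fin n))} (hC : MeasurableSet C) (H : ∀ x : Fin n → ℝ, WithLp.toLp 2 x ∈ C ↔ 0 ≤ L *ᵥ x)
    {f : EuclideanSpace ℝ (Fin n) → ENNReal} (hf : Measurable f) :
    ∫⁻ x in C, f x = ENNReal.ofReal |N.det| * ∫⁻ p in Pos n, f (WithLp.toLp 2 (N *ᵥ p)) := by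
  have hN : N.det ≠ 0 := fun e => by
    have := congrArg Matrix.det h
    rw [det_mul, e, mul_zero, det_one] at this
    exact zero_ne_one this
  rw [← lintegral_indicator hC, toE _ (hf.indicator hC), cov hN (by
    exact (hf.indicator hC).comp (by fun_prop))]
  congr 1
  have e : (univ.pi fun _ : Fin n => Ioi (0 : ℝ)) =ᵐ[volume] (Ici 0 : Set (Fin n → ℝ)) := by
    rw [volume_pi]; exact Measure.univ_pi_Ioi_ae_eq_Ici
  rw [setLIntegral_congr e, ← lintegral_indicator measurableSet_Ici]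
  refine lintegral_congr fun p => ?_
  have e2 : WithLp.toLp 2 (N *ᵥ p) ∈ C ↔ p ∈ Ici 0 := by
    rw [H, mulVec_mulVec, h, one_mulVec, mem_Ici]
  by_cases hp : p ∈ Ici 0
  · rw [indicator_of_mem hp, indicator_of_mem (e2.2 hp)]
  · rw [indicator_of_notMem hp, indicator_of_notMem fun h => hp (e2.1 h)]

theorem meas_cone {n : ℕ} (a : Fin n → EuclideanSpace ℝ (Fin n)) : MeasurableSet (Cone a) := by
  refine IsClosed.measurableSet ?_
  simp only [Cone, ofPred_forall]
  exact isClosed_iInter fun _ => isClosed_le (by fun_prop) (by fun_prop)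

theorem meas_dual {n : ℕ} (C : Set (EuclideanSpace ℝ (Fin n))) : MeasurableSet (Dual C) := by
  refine IsClosed.measurableSet ?_
  simp only [Dual, ofPred_forall]
  exact isClosed_iInter fun _ => isClosed_iInter fun _ => isClosed_le (by fun_prop) (by fun_prop)

theorem meas_orthant (n : ℕ) : MeasurableSet (Orthant n) := by
  refine IsClosed.measurableSet ?_
  simp only [Orthant, ofPred_forall]
  exact isClosed_iInter fun _ => isClosed_le (by fun_prop) (by fun_prop)

theorem functional {n : ℕ} (a : Fin n → EuclideanSpace ℝ (Fin n)) (ha : LinearIndependent ℝ a)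
    (f g : EuclideanSpace ℝ (Fin n) → ENNReal) (ρ : ℝ → ENNReal) (hf : Measurable f)
    (hg : Measurable g) (hρ : Measurable ρ)
    (H : ∀ x ∈ Cone a, ∀ y ∈ Dual (Cone a), f x * g y ≤ ρ (inner ℝ x y) ^ 2) :
    (∫⁻ x in Cone a, f x) * ∫⁻ y in Dual (Cone a), g y ≤ (∫⁻ z in Orthant n, ρ (‖z‖ ^ 2)) ^ 2 := by
  let M : Matrix (Fin n) (Fin n) ℝ := Matrix.of fun i => (a i).1
  have hM : IsUnit M := linearIndependent_rows_iff_isUnit.1
    (ha.map' (WithLp.linearEquiv 2 ℝ (Fin n → ℝ)).toLinearMap (LinearEquiv.ker _))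
  obtain ⟨N, hN⟩ := hM.exists_left_inv
  have hN' : M * N = 1 := mul_eq_one_comm.1 hN
  have c1 : ∀ x : Fin n → ℝ, WithLp.toLp 2 x ∈ Cone a ↔ 0 ≤ M *ᵥ x := fun x => by
    refine forall_congr' fun i => ?_
    rw [ip, dotProduct_comm]
    rfl
  have c2 : ∀ y : Fin n → ℝ, WithLp.toLp 2 y ∈ Dual (Cone a) ↔ 0 ≤ Nᵀ *ᵥ y := fun y => by
    constructor
    · intro h j
      have := h (WithLp.toLp 2 (Nᵀ j)) ((c1 _).2 fun i => by
        have : (M *ᵥ Nᵀ j) i = (M * N) i j := rfl
        rw [this, hN', one_apply]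
        simp only [Pi.zero_apply]
        positivity)
      rw [ip, dotProduct_comm] at this
      exact this
    · intro h x hx
      have h1 := (c1 x.1).1 hx
      rw [ip]
      have e : x.1 = N *ᵥ (M *ᵥ x.1) := by rw [mulVec_mulVec, hN, one_mulVec]
      change 0 ≤ y ⬝ᵥ x.1
      rw [e, dotProduct_mulVec, ← mulVec_transpose]
      exact Finset.sum_nonneg fun i _ => mul_nonneg (h i) (h1 i)
  have hO : ∀ x : Fin n → ℝ, WithLp.toLp 2 x ∈ Orthant n ↔ 0 ≤ (1 : Matrix (Fin n) (Fin n) ℝ) *ᵥ x :=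
    fun x => by rw [one_mulVec]; rfl
  rw [cone_int hN' (meas_cone a) c1 hf, cone_int (L := Nᵀ) (N := Mᵀ) (by rw [← transpose_mul, hN', transpose_one])
    (meas_dual _) c2 hg, cone_int (one_mul 1) (meas_orthant n) hO (f := fun z => ρ (‖z‖ ^ 2)) (by fun_prop),
    mul_mul_mul_comm, ← ENNReal.ofReal_mul (abs_nonneg _), ← abs_mul, det_transpose, ← det_mul, hN,
    det_one, abs_one, ENNReal.ofReal_one, one_mul, one_mul]
  have mo : MeasurableSet (Pos n) := MeasurableSet.univ_pi fun _ => measurableSet_Ioi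
  simp only [one_mulVec]
  have key := pl_orthant n ((Pos n).indicator fun p => f (WithLp.toLp 2 (N *ᵥ p)))
    ((Pos n).indicator fun q => g (WithLp.toLp 2 (Mᵀ *ᵥ q))) (fun z => ρ (z ⬝ᵥ z))
    (Measurable.indicator (by fun_prop) mo) (Measurable.indicator (by fun_prop) mo) (by fun_prop)
    fun p q => by
      by_cases hp : p ∈ Pos n
      · by_cases hq : q ∈ Pos n
        · rw [indicator_of_mem hp, indicator_of_mem hq]
          have hp' : 0 ≤ p := fun i => (hp i trivial).le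
          have hq' : 0 ≤ q := fun i => (hq i trivial).le
          have := H (WithLp.toLp 2 (N *ᵥ p)) ((c1 _).2 (by rwa [mulVec_mulVec, hN', one_mulVec]))
            (WithLp.toLp 2 (Mᵀ *ᵥ q)) ((c2 _).2 (by
              rwa [mulVec_mulVec, ← transpose_mul, hN', transpose_one, one_mulVec]))
          have e : (fun i => √(p i * q i)) ⬝ᵥ (fun i => √(p i * q i)) = N *ᵥ p ⬝ᵥ Mᵀ *ᵥ q := by
            rw [mulVec_transpose, dotProduct_comm (N *ᵥ p), ← dotProduct_mulVec, mulVec_mulVec, hN',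
              one_mulVec]
            exact Finset.sum_congr rfl fun i _ => by
              rw [Real.mul_self_sqrt (mul_nonneg (hp' i) (hq' i)), mul_comm]
          rw [ip] at this
          rw [e]
          exact this
        · rw [indicator_of_notMem hq, mul_zero]; exact zero_le
      · rw [indicator_of_notMem hp, zero_mul]; exact zero_le
  rw [lintegral_indicator mo, lintegral_indicator mo, Measure.restrict_restrict mo, inter_self] at key
  refine key.trans_eq ?_
  congr 2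
  funext z
  rw [EuclideanSpace.real_norm_sq_eq]
  simp [dotProduct, sq]

theorem sets {n : ℕ} (a : Fin n → EuclideanSpace ℝ (Fin n)) (ha : LinearIndependent ℝ a)
    (K : Set (EuclideanSpace ℝ (Fin n))) (hK : MeasurableSet K) (hKC : K ⊆ Cone a) :
    volume K * volume {y ∈ Dual (Cone a) | ∀ x ∈ K, inner ℝ x y ≤ 1} ≤
      volume (Orthant n ∩ closedBall 0 1) ^ 2 := by
  have hD : MeasurableSet {y : EuclideanSpace ℝ (Fin n) | ∀ x ∈ K, inner ℝ x y ≤ 1} := by
    refine IsClosed.measurableSet ?_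
    simp only [ofPred_forall]
    exact isClosed_iInter fun _ => isClosed_iInter fun _ => isClosed_le (by fun_prop) (by fun_prop)
  have := functional a ha (K.indicator 1)
    ({y : EuclideanSpace ℝ (Fin n) | ∀ x ∈ K, inner ℝ x y ≤ 1}.indicator 1) ((Iic 1).indicator 1)
    (measurable_one.indicator hK) (measurable_one.indicator hD)
    (measurable_one.indicator measurableSet_Iic) fun x _ y _ => by
      by_cases hx : x ∈ K
      · by_cases hy : y ∈ {y : EuclideanSpace ℝ (Fin n) | ∀ x ∈ K, inner ℝ x y ≤ 1}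
        · rw [indicator_of_mem hx, indicator_of_mem hy,
            indicator_of_mem (show inner ℝ x y ∈ Iic (1 : ℝ) from hy x hx)]
          simp
        · rw [indicator_of_notMem hy, mul_zero]; exact zero_le
      · rw [indicator_of_notMem hx, zero_mul]; exact zero_le
  rw [lintegral_indicator_one hK, lintegral_indicator_one hD, Measure.restrict_apply hK,
    Measure.restrict_apply hD, inter_eq_left.2 hKC] at this
  have e : ∀ z : EuclideanSpace ℝ (Fin n), (Iic (1 : ℝ)).indicator (1 : ℝ → ENNReal) (‖z‖ ^ 2) =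
      (closedBall (0 : EuclideanSpace ℝ (Fin n)) 1).indicator 1 z := fun z => by
    have e1 : ‖z‖ ^ 2 ∈ Iic (1 : ℝ) ↔ z ∈ closedBall (0 : EuclideanSpace ℝ (Fin n)) 1 := by
      rw [mem_closedBall_zero_iff, mem_Iic, sq_le_one_iff₀ (norm_nonneg z)]
    by_cases hz : z ∈ closedBall (0 : EuclideanSpace ℝ (Fin n)) 1
    · rw [indicator_of_mem hz, indicator_of_mem (e1.2 hz)]; rfl
    · rw [indicator_of_notMem hz, indicator_of_notMem fun h => hz (e1.1 h)]
  simp only [e] at this
  rw [lintegral_indicator_one isClosed_closedBall.measurableSet,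
    Measure.restrict_apply isClosed_closedBall.measurableSet] at this
  rw [inter_comm (Orthant n)]
  refine le_trans (le_of_eq ?_) this
  congr 2
  ext y
  exact and_comm

/-- The part of a cone on the unit sphere. -/
def OnSphere {n : ℕ} (C : Set (EuclideanSpace ℝ (Fin n))) :
    Set (sphere (0 : EuclideanSpace ℝ (Fin n)) 1) := {x | x.1 ∈ C}

/-- The spherical dual. -/
def SDual {n : ℕ} (Q : Set (sphere (0 : EuclideanSpace ℝ (Fin n)) 1)) :
    Set (sphere (0 : EuclideanSpace ℝ (Fin n)) 1) := {x | ∀ y ∈ Q, 0 ≤ inner ℝ x.1 y.1}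

/-- The spherical volume product (`toSphere` is the surface measure). -/
noncomputable def P {n : ℕ} (Q : Set (sphere (0 : EuclideanSpace ℝ (Fin n)) 1)) : ENNReal :=
  (volume : Measure (EuclideanSpace ℝ (Fin n))).toSphere Q *
    (volume : Measure (EuclideanSpace ℝ (Fin n))).toSphere (SDual Q)

theorem sphere_le {n : ℕ} {C : Set (EuclideanSpace ℝ (Fin n))} (hC : MeasurableSet C)
    (hs : ∀ x ∈ C, ∀ t : ℝ, 0 < t → t • x ∈ C) :
    (volume : Measure (EuclideanSpace ℝ (Fin n))).toSphere (OnSphere C) ≤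
      n * volume (C ∩ ball 0 1) := by
  rw [Measure.toSphere_apply' _ (show MeasurableSet (OnSphere C) from
    hC.preimage measurable_subtype_coe), finrank_euclideanSpace_fin]
  gcongr
  rintro _ ⟨r, hr, _, ⟨x, hx, rfl⟩, rfl⟩
  refine ⟨hs _ hx _ hr.1, ?_⟩
  simpa [norm_smul, abs_of_pos hr.1] using hr.2

theorem le_sphere {n : ℕ} (hn : n ≠ 0) {C : Set (EuclideanSpace ℝ (Fin n))} (hC : MeasurableSet C)
    (hs : ∀ x ∈ C, ∀ t : ℝ, 0 < t → t • x ∈ C) :
    n * volume (C ∩ closedBall 0 1) ≤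
      (volume : Measure (EuclideanSpace ℝ (Fin n))).toSphere (OnSphere C) := by
  have : Nonempty (Fin n) := ⟨⟨0, Nat.pos_of_ne_zero hn⟩⟩
  rw [Measure.toSphere_apply' _ (show MeasurableSet (OnSphere C) from
    hC.preimage measurable_subtype_coe), finrank_euclideanSpace_fin]
  refine mul_le_mul' le_rfl ?_
  rw [← measure_sdiff_null (s := C ∩ closedBall (0 : EuclideanSpace ℝ (Fin n)) 1)
    (t := {0} ∪ sphere 0 1) (by
      refine measure_union_null (measure_singleton _) (Measure.addHaar_sphere _ _ _))]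
  refine measure_mono ?_
  rintro x ⟨⟨hx, h1⟩, h2⟩
  simp only [mem_union, mem_singleton_iff, mem_sphere_zero_iff_norm, not_or] at h2
  have n0 := norm_pos_iff.2 h2.1
  rw [mem_closedBall_zero_iff] at h1
  exact ⟨‖x‖, ⟨n0, h1.lt_of_ne h2.2⟩, ‖x‖⁻¹ • x,
    ⟨⟨_, by simpa using norm_smul_inv_norm (𝕜 := ℝ) h2.1⟩, hs _ hx _ (inv_pos.2 n0), rfl⟩,
    by simp [smul_smul, n0.ne']⟩

theorem sdual {n : ℕ} {C : Set (EuclideanSpace ℝ (Fin n))}
    (hs : ∀ x ∈ C, ∀ t : ℝ, 0 < t → t • x ∈ C) : SDual (OnSphere C) = OnSphere (Dual C) := by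
  ext y
  constructor
  · intro h x hx
    rcases eq_or_ne x 0 with rfl | h0
    · simp
    have n0 := norm_pos_iff.2 h0
    have := h ⟨‖x‖⁻¹ • x, by simpa using norm_smul_inv_norm (𝕜 := ℝ) h0⟩ (hs _ hx _ (inv_pos.2 n0))
    rw [real_inner_smul_right] at this
    exact nonneg_of_mul_nonneg_right this (inv_pos.2 n0)
  · intro h x hx
    exact h _ hx

theorem cone_smul {n : ℕ} (a : Fin n → EuclideanSpace ℝ (Fin n)) :
    ∀ x ∈ Cone a, ∀ t : ℝ, 0 < t → t • x ∈ Cone a := fun x hx t ht i => by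
  rw [real_inner_smul_left]
  exact mul_nonneg ht.le (hx i)

theorem dual_smul {n : ℕ} (C : Set (EuclideanSpace ℝ (Fin n))) :
    ∀ x ∈ Dual C, ∀ t : ℝ, 0 < t → t • x ∈ Dual C := fun x hx t ht i hi => by
  rw [real_inner_smul_left]
  exact mul_nonneg ht.le (hx i hi)

theorem orthant_smul (n : ℕ) :
    ∀ x ∈ Orthant n, ∀ t : ℝ, 0 < t → t • x ∈ Orthant n := fun x hx t ht i => by
  exact mul_nonneg ht.le (hx i)

theorem orthant_dual (n : ℕ) : Orthant n ⊆ Dual (Orthant n) := fun x hx y hy => by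
  rw [ip]
  exact Finset.sum_nonneg fun i _ => mul_nonneg (hx i) (hy i)

/-- **Functional Blaschke–Santaló inequality for simplicial cones.** -/
theorem result (n : ℕ) (a : Fin n → EuclideanSpace ℝ (Fin n)) (ha : LinearIndependent ℝ a) :
    -- functional form
    (∀ (f g : EuclideanSpace ℝ (Fin n) → ENNReal) (ρ : ℝ → ENNReal), Measurable f → Measurable g →
      Measurable ρ → (∀ x ∈ Cone a, ∀ y ∈ Dual (Cone a), f x * g y ≤ ρ (inner ℝ x y) ^ 2) →
      (∫⁻ x in Cone a, f x) * ∫⁻ y in Dual (Cone a), g y ≤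
        (∫⁻ z in Orthant n, ρ (‖z‖ ^ 2)) ^ 2) ∧
    -- form for sets
    (∀ K : Set (EuclideanSpace ℝ (Fin n)), MeasurableSet K → K ⊆ Cone a →
      volume K * volume {y ∈ Dual (Cone a) | ∀ x ∈ K, inner ℝ x y ≤ 1} ≤
        volume (Orthant n ∩ closedBall 0 1) ^ 2) ∧
    -- spherical volume product
    P (OnSphere (Cone a)) ≤ P (OnSphere (Orthant n)) := by
  refine ⟨functional a ha, sets a ha, ?_⟩
  rcases eq_or_ne n 0 with rfl | hn
  · rw [P, (Measure.toSphere_eq_zero_iff_finrank _).2 (by simp)]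
    simp
  rw [P, P, sdual (cone_smul a), sdual (orthant_smul n)]
  refine (mul_le_mul' (sphere_le (meas_cone a) (cone_smul a))
    (sphere_le (meas_dual _) (dual_smul _))).trans (le_trans ?_ (mul_le_mul'
      (le_sphere hn (meas_orthant n) (orthant_smul n))
      (le_sphere hn (meas_dual _) (dual_smul _))))
  rw [mul_mul_mul_comm, mul_mul_mul_comm (n : ENNReal) (volume _)]
  refine mul_le_mul' le_rfl ?_
  refine le_trans (mul_le_mul' le_rfl (measure_mono ?_)) ((sets a ha (Cone a ∩ ball 0 1)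
    ((meas_cone a).inter measurableSet_ball) inter_subset_left).trans ?_)
  · rintro y ⟨hy, hy1⟩
    refine ⟨hy, fun x hx => ?_⟩
    have h1 := mem_ball_zero_iff.1 hx.2
    have h2 := mem_ball_zero_iff.1 hy1
    have h3 := real_inner_le_norm x y
    nlinarith [norm_nonneg x, norm_nonneg y]
  · rw [sq]
    gcongr
    exact orthant_dual n

end Pool.Agent.Results.MP_3f0dd2_gt.ConeSantalo
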